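import Pool.Agent.H72.Corner.Fast

/-!
From peeling certificates to coverings of `(F_2^n)^2` by few large corner-free sets.

`cover` and `cover_real` (random translates) are as in the library module
`Pool.Graph.R_pool_sql_team_seeded_63374d34.N68.Corner.Cover`.
-/

set_option autoImplicit false

namespace Pool.Agent.H72.Corner

open Finset Filter Topology

/-- covering a group by translates of a set -/
lemma cover {H : Type*} [AddCommGroup H] [Fintype H] [DecidableEq H] (A : Finset H) (k : ℕ)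
    (hk : Fintype.card H * (Fintype.card H - A.card) ^ k < Fintype.card H ^ k) :
    ∃ t : Fin k → H, ∀ h, ∃ i, h - t i ∈ A := by
  classical
  by_contra hcon
  push Not at hcon
  have h1 : (univ : Finset (Fin k → H)) ⊆ (univ : Finset H).biUnion
      (fun h => Fintype.piFinset fun _ : Fin k => univ.filter fun t => h - t ∉ A) := by
    intro t _
    obtain ⟨h, hh⟩ := hcon t
    rw [mem_biUnion]
    refine ⟨h, mem_univ _, ?_⟩
    rw [Fintype.mem_piFinset]
    intro i
    rw [mem_filter]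
    exact ⟨mem_univ _, hh i⟩
  have h2 := (card_le_card h1).trans card_biUnion_le
  have h3 : ∀ h : H, (univ.filter fun t => h - t ∉ A).card = Fintype.card H - A.card := by
    intro h
    have e1 : (univ.filter fun t => h - t ∈ A).card = A.card := by
      apply card_bij (fun t _ => h - t)
      · intro t ht
        exact (mem_filter.1 ht).2
      · intro t _ t' _ e
        exact sub_right_injective e
      · intro b hb
        exact ⟨h - b, by rw [mem_filter]; exact ⟨mem_univ _, by rwa [sub_sub_cancel]⟩,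
          sub_sub_cancel _ _⟩
    have e2 := card_filter_add_card_filter_not (s := (univ : Finset H)) (fun t => h - t ∈ A)
    rw [e1, card_univ] at e2
    omega
  simp only [Fintype.card_piFinset, h3, prod_const, card_univ, Fintype.card_fin, sum_const,
    smul_eq_mul, Fintype.card_fun] at h2
  exact absurd h2 (not_le.2 hk)

/-- covering a group by few translates of a set -/
lemma cover_real {H : Type*} [AddCommGroup H] [Fintype H] [DecidableEq H] (A : Finset H)
    (hA : 0 < A.card) : ∃ (k : ℕ) (t : Fin k → H), (∀ h, ∃ i, h - t i ∈ A) ∧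
      (k : ℝ) ≤ Real.log (Fintype.card H) * (Fintype.card H / A.card) + 1 := by
  have hA0 : (0 : ℝ) < A.card := by exact_mod_cast hA
  have hle : A.card ≤ Fintype.card H := card_le_univ A
  have hAH : (A.card : ℝ) ≤ Fintype.card H := by exact_mod_cast hle
  have hH0 : (0 : ℝ) < Fintype.card H := by linarith
  have hH1 : (1 : ℝ) ≤ Fintype.card H := by
    have : 1 ≤ Fintype.card H := by omega
    exact_mod_cast this
  set ρ : ℝ := (A.card : ℝ) / Fintype.card H with hρ
  have hρ0 : 0 < ρ := by positivity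
  have hρ1 : ρ ≤ 1 := by rw [hρ, div_le_one hH0]; exact hAH
  set ℓ : ℝ := Real.log (Fintype.card H) with hℓ
  have hℓ0 : 0 ≤ ℓ := Real.log_nonneg hH1
  set k : ℕ := ⌊ℓ / ρ⌋₊ + 1 with hk
  have hk1 : ℓ / ρ < k := by
    rw [hk]
    push_cast
    exact Nat.lt_floor_add_one _
  have hk2 : (k : ℝ) ≤ ℓ / ρ + 1 := by
    rw [hk]
    push_cast
    have : (⌊ℓ / ρ⌋₊ : ℝ) ≤ ℓ / ρ := Nat.floor_le (by positivity)
    linarith
  have hcov : Fintype.card H * (Fintype.card H - A.card) ^ k < Fintype.card H ^ k := by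
    have : ((Fintype.card H : ℝ) * ((Fintype.card H : ℝ) - A.card) ^ k) <
        (Fintype.card H : ℝ) ^ k := by
      have e1 : (Fintype.card H : ℝ) - A.card = Fintype.card H * (1 - ρ) := by
        rw [hρ]
        field_simp
      have e2 : 1 - ρ ≤ Real.exp (-ρ) := by
        have := Real.add_one_le_exp (-ρ)
        linarith
      have e3 : (1 - ρ) ^ k ≤ Real.exp (-(ρ * k)) := by
        calc (1 - ρ) ^ k ≤ Real.exp (-ρ) ^ k := pow_le_pow_left₀ (by linarith) e2 k
          _ = Real.exp (-(ρ * k)) := by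
            rw [← Real.exp_nat_mul]
            congr 1
            ring
      have e4 : Real.exp (-(ρ * k)) < Real.exp (-ℓ) := by
        apply Real.exp_lt_exp.2
        rw [div_lt_iff₀ hρ0] at hk1
        linarith
      have e5 : Real.exp (-ℓ) = (Fintype.card H : ℝ)⁻¹ := by
        rw [Real.exp_neg, hℓ, Real.exp_log hH0]
      rw [e1, mul_pow]
      have hHk : (0 : ℝ) < (Fintype.card H : ℝ) ^ k := by positivity
      calc (Fintype.card H : ℝ) * ((Fintype.card H : ℝ) ^ k * (1 - ρ) ^ k)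
          = (Fintype.card H : ℝ) ^ k * ((Fintype.card H : ℝ) * (1 - ρ) ^ k) := by ring
        _ < (Fintype.card H : ℝ) ^ k * 1 := by
          apply mul_lt_mul_of_pos_left _ hHk
          calc (Fintype.card H : ℝ) * (1 - ρ) ^ k
              ≤ (Fintype.card H : ℝ) * Real.exp (-(ρ * k)) :=
                mul_le_mul_of_nonneg_left e3 hH0.le
            _ < (Fintype.card H : ℝ) * Real.exp (-ℓ) := mul_lt_mul_of_pos_left e4 hH0
            _ = 1 := by rw [e5, mul_inv_cancel₀ hH0.ne']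
        _ = _ := mul_one _
    have h2 : (((Fintype.card H - A.card : ℕ) : ℕ) : ℝ) = (Fintype.card H : ℝ) - A.card := by
      rw [Nat.cast_sub hle]
    rw [← h2] at this
    exact_mod_cast this
  obtain ⟨t, ht⟩ := cover A k hcov
  refine ⟨k, t, ht, hk2.trans (le_of_eq ?_)⟩
  rw [hρ, div_div_eq_mul_div, mul_div_assoc]

/-- `A ⊆ F_2^n × F_2^n` contains no nontrivial corner `(x,y), (x,y+z), (x+z,y)`, `z ≠ 0`. -/
def NoCorner {n : ℕ} (A : Finset ((Fin n → ZMod 2) × (Fin n → ZMod 2))) : Prop :=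
  ∀ x y z : Fin n → ZMod 2, z ≠ 0 → ¬ ((x, y) ∈ A ∧ (x, y + z) ∈ A ∧ (x + z, y) ∈ A)

/-- translates of corner-free sets are corner-free -/
lemma NoCorner.translate {n : ℕ} {A : Finset ((Fin n → ZMod 2) × (Fin n → ZMod 2))}
    (hA : NoCorner A) (t : (Fin n → ZMod 2) × (Fin n → ZMod 2)) :
    NoCorner (A.image (fun p => p + t)) := by
  have key : ∀ x y : Fin n → ZMod 2, (x, y) ∈ A.image (fun p => p + t) →
      (x - t.1, y - t.2) ∈ A := by
    intro x y h
    obtain ⟨p, hp, e⟩ := mem_image.1 h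
    have e1 : p.1 + t.1 = x := congrArg Prod.fst e
    have e2 : p.2 + t.2 = y := congrArg Prod.snd e
    rw [← e1, ← e2, add_sub_cancel_right, add_sub_cancel_right]
    exact hp
  rintro x y z hz ⟨h1, h2, h3⟩
  refine hA (x - t.1) (y - t.2) z hz ⟨key _ _ h1, ?_, ?_⟩
  · have := key _ _ h2
    rwa [add_sub_right_comm] at this
  · have := key _ _ h3
    rwa [add_sub_right_comm] at this

/-- sizes at least `2 ^ (3 q n / p)` in the form of real powers -/
lemma large_of_cert {p q : ℕ} (hp : 0 < p) {β : ℝ} (hβ0 : 0 < β) (hβ : β ^ p ≤ 2 ^ (3 * q))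
    {n a : ℕ} (h : 2 ^ (3 * q * n) ≤ a ^ p) : β ^ n ≤ (a : ℝ) := by
  have h1 : (2 : ℝ) ^ (3 * q * n) ≤ (a : ℝ) ^ p := by exact_mod_cast h
  have h2 : (β ^ n) ^ p ≤ (2 : ℝ) ^ (3 * q * n) := by
    rw [← pow_mul, mul_comm n p, pow_mul, pow_mul]
    exact pow_le_pow_left₀ (by positivity) hβ n
  exact le_of_pow_le_pow_left₀ hp.ne' (by positivity) (h2.trans h1)

/-- **Covering.** -/
theorem cover_of_cert {p q : ℕ} (hp : 0 < p)
    (cert : ∃ n0 : ℕ, ∀ n : ℕ, n0 ≤ n → ∃ S : Finset ((Fin n → ZMod 2) × (Fin n → ZMod 2)),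
      Pool.Agent.H523R2.Corner.CornerFree S ∧ 2 ^ (3 * q * n) ≤ S.card ^ p)
    {β c : ℝ} (hβ0 : 0 < β) (hβ4 : β ≤ 4) (hβ : β ^ p ≤ 2 ^ (3 * q)) (hc : 4 < c * β) :
    ∃ n0 : ℕ, ∀ n : ℕ, n0 ≤ n →
      ∃ 𝒜 : Finset (Finset ((Fin n → ZMod 2) × (Fin n → ZMod 2))),
        (𝒜.card : ℝ) ≤ c ^ n ∧ (∀ A ∈ 𝒜, NoCorner A ∧ β ^ n ≤ (A.card : ℝ)) ∧
          ∀ v, ∃ A ∈ 𝒜, v ∈ A := by
  classical
  obtain ⟨n1, h1⟩ := cert
  set b : ℝ := 4 / β with hb
  have hb1 : 1 ≤ b := by rw [hb, le_div_iff₀ hβ0]; linarith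
  have hb0 : 0 < b := by linarith
  have hbc : b < c := by rw [hb, div_lt_iff₀ hβ0]; exact hc
  have hc0 : 0 < c := by linarith
  have hr : |b / c| < 1 := by
    rw [abs_of_nonneg (by positivity), div_lt_one hc0]
    exact hbc
  have hlim := tendsto_pow_const_mul_const_pow_of_abs_lt_one 1 hr
  set M : ℝ := 2 * Real.log 2 + 1 with hM
  have hlog : 0 ≤ Real.log 2 := Real.log_nonneg (by norm_num)
  have hM0 : 0 < M := by linarith
  have hev := hlim.eventually (gt_mem_nhds (show (0 : ℝ) < 1 / M by positivity))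
  obtain ⟨n2, hn2⟩ := eventually_atTop.1 hev
  refine ⟨max (max n1 n2) 1, fun n hn => ?_⟩
  obtain ⟨A, hA', hAc'⟩ := h1 n ((le_max_left _ _).trans ((le_max_left _ _).trans hn))
  have hA : NoCorner A := hA'
  have hAc : β ^ n ≤ (A.card : ℝ) := large_of_cert hp hβ0 hβ hAc'
  have hn2' := hn2 n ((le_max_right _ _).trans ((le_max_left _ _).trans hn))
  have hn' : 1 ≤ n := (le_max_right _ _).trans hn
  have hnR : (1 : ℝ) ≤ n := by exact_mod_cast hn'
  have hHc : (Fintype.card ((Fin n → ZMod 2) × (Fin n → ZMod 2)) : ℝ) = (4 : ℝ) ^ n := by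
    rw [Fintype.card_prod, Fintype.card_fun, ZMod.card, Fintype.card_fin]
    push_cast
    rw [← mul_pow]
    norm_num
  have hA0 : (0 : ℝ) < A.card := lt_of_lt_of_le (by positivity) hAc
  obtain ⟨k, t, ht, hk⟩ := cover_real A (by exact_mod_cast hA0)
  rw [hHc] at hk
  refine ⟨univ.image (fun i => A.image (fun p => p + t i)), ?_, ?_, ?_⟩
  · have h3 : ((univ.image (fun i => A.image (fun p => p + t i))).card : ℝ) ≤ k := by
      have := card_image_le (s := (univ : Finset (Fin k)))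
        (f := fun i => A.image (fun p => p + t i))
      rw [card_univ, Fintype.card_fin] at this
      exact_mod_cast this
    refine h3.trans (hk.trans ?_)
    have h4 : (4 : ℝ) ^ n / A.card ≤ b ^ n := by
      rw [div_le_iff₀ hA0, hb, div_pow, div_mul_eq_mul_div, le_div_iff₀ (by positivity)]
      exact mul_le_mul_of_nonneg_left hAc (by positivity)
    have h5 : (1 : ℝ) ≤ b ^ n := one_le_pow₀ hb1
    have h8 : Real.log ((4 : ℝ) ^ n) = 2 * n * Real.log 2 := by
      rw [show (4 : ℝ) = 2 ^ 2 by norm_num, ← pow_mul, Real.log_pow]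
      push_cast
      ring
    rw [h8]
    have h6 : 2 * n * Real.log 2 * ((4 : ℝ) ^ n / A.card) + 1 ≤ M * n * b ^ n := by
      have e1 : 2 * n * Real.log 2 * ((4 : ℝ) ^ n / A.card) ≤ 2 * n * Real.log 2 * b ^ n :=
        mul_le_mul_of_nonneg_left h4 (by positivity)
      have e2 : (1 : ℝ) ≤ n * b ^ n := by nlinarith
      calc _ ≤ 2 * n * Real.log 2 * b ^ n + n * b ^ n := by linarith
        _ = M * n * b ^ n := by rw [hM]; ring
    have h7 : M * n * b ^ n ≤ c ^ n := by
      have hcn : 0 < c ^ n := by positivity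
      rw [pow_one, div_pow, lt_div_iff₀ hM0, ← mul_div_assoc, div_mul_eq_mul_div,
        div_lt_one hcn] at hn2'
      calc M * n * b ^ n = n * b ^ n * M := by ring
        _ ≤ c ^ n := hn2'.le
    linarith
  · intro B hB
    obtain ⟨i, _, rfl⟩ := mem_image.1 hB
    refine ⟨hA.translate (t i), ?_⟩
    rw [card_image_of_injective _ (add_left_injective (t i))]
    exact hAc
  · intro v
    obtain ⟨i, hi⟩ := ht v
    exact ⟨_, mem_image.2 ⟨i, mem_univ _, rfl⟩, mem_image.2 ⟨v - t i, hi, sub_add_cancel _ _⟩⟩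

/-- a power saving bound has saving at most `1 - 3 q / (2 p)` -/
theorem saving_of_cert {p q : ℕ} (hp : 0 < p)
    (cert : ∃ n0 : ℕ, ∀ n : ℕ, n0 ≤ n → ∃ S : Finset ((Fin n → ZMod 2) × (Fin n → ZMod 2)),
      Pool.Agent.H523R2.Corner.CornerFree S ∧ 2 ^ (3 * q * n) ≤ S.card ^ p)
    {C c : ℝ} (h : ∀ n : ℕ, 1 ≤ n → ∀ A : Finset ((Fin n → ZMod 2) × (Fin n → ZMod 2)),
      NoCorner A → (A.card : ℝ) ≤ C * (4 : ℝ) ^ ((1 - c) * n)) :
    c ≤ 1 - 3 * q / (2 * p) := by
  obtain ⟨n1, h1⟩ := cert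
  have hpR : (0 : ℝ) < p := by exact_mod_cast hp
  by_contra hcon
  push Not at hcon
  set δ : ℝ := c - (1 - 3 * q / (2 * p)) with hδ
  have hδ0 : 0 < δ := by rw [hδ]; linarith
  have hg : 1 < (4 : ℝ) ^ δ := Real.one_lt_rpow (by norm_num) hδ0
  have hlim := tendsto_pow_atTop_atTop_of_one_lt hg
  obtain ⟨n2, hn2⟩ := eventually_atTop.1 (hlim.eventually (eventually_gt_atTop C))
  set n := max (max n1 n2) 1 with hn
  obtain ⟨A, hA', hAc'⟩ := h1 n ((le_max_left _ _).trans (le_max_left _ _))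
  have hA : NoCorner A := hA'
  have h3 := h n (le_max_right _ _) A hA
  have h4 := hn2 n ((le_max_right _ _).trans (le_max_left _ _))
  have h5 : (4 : ℝ) ^ ((3 * q / (2 * p) : ℝ) * n) ≤ A.card := by
    have e1 : (2 : ℝ) ^ (3 * q * n) ≤ (A.card : ℝ) ^ p := by exact_mod_cast hAc'
    have e2 : ((4 : ℝ) ^ ((3 * q / (2 * p) : ℝ) * n)) ^ p = (2 : ℝ) ^ (3 * q * n) := by
      rw [← Real.rpow_natCast, ← Real.rpow_mul (by norm_num),
        show (4 : ℝ) = (2 : ℝ) ^ (2 : ℝ) by norm_num, ← Real.rpow_mul (by norm_num),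
        ← Real.rpow_natCast]
      congr 1
      push_cast
      field_simp
    rw [← e2] at e1
    exact le_of_pow_le_pow_left₀ hp.ne' (by positivity) e1
  have h6 : (4 : ℝ) ^ ((3 * q / (2 * p) : ℝ) * n)
      = (4 : ℝ) ^ ((1 - c) * (n : ℝ)) * ((4 : ℝ) ^ δ) ^ n := by
    rw [← Real.rpow_natCast ((4 : ℝ) ^ δ), ← Real.rpow_mul (by norm_num),
      ← Real.rpow_add (by norm_num)]
    congr 1
    rw [hδ]
    ring
  have h7 : 0 < (4 : ℝ) ^ ((1 - c) * (n : ℝ)) := by positivity
  rw [h6] at h5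
  nlinarith

end Pool.Agent.H72.Corner
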