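import Pool.Graph.R_seed8.H523R2.Corner.Codes

/-!
A fast kernel check of peeling certificates: the cells are looked up in a table of positions.
-/

set_option autoImplicit false

namespace Pool.Agent.H72.Corner

open Finset Pool.Agent.H523R2.Corner

lemma idx_bits : ∀ (k x : ℕ), x < 2 ^ k → idx (bits k x) = x := by
  intro k
  induction k with
  | zero =>
    intro x hx
    simp only [pow_zero, Nat.lt_one_iff] at hx
    subst hx
    simp [idx]
  | succ k ih =>
    intro x hx
    have h1 : x / 2 < 2 ^ k := by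
      rw [Nat.div_lt_iff_lt_mul (by norm_num)]
      rw [pow_succ] at hx
      exact hx
    have h2 := ih (x / 2) h1
    unfold idx at h2 ⊢
    rw [Fin.sum_univ_succ]
    have e : ∀ i : Fin k, (bits (k + 1) x i.succ).val * 2 ^ ((i.succ : Fin (k + 1)) : ℕ)
        = 2 * ((bits k (x / 2) i).val * 2 ^ (i : ℕ)) := by
      intro i
      have : bits (k + 1) x i.succ = bits k (x / 2) i := by
        simp only [bits, Fin.val_succ, Nat.testBit_succ]
      rw [this, Fin.val_succ, pow_succ]
      ring
    rw [sum_congr rfl (fun i _ => e i), ← mul_sum, h2]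
    have h0 : (bits (k + 1) x 0).val = x % 2 := by
      simp only [bits, Fin.val_zero, Nat.testBit_zero]
      rcases Nat.mod_two_eq_zero_or_one x with h | h
      · simp [h]
      · simp [h, ZMod.val_one]
    rw [h0]
    simp only [Fin.val_zero, pow_zero, mul_one]
    omega

lemma sum_idx (k : ℕ) (f : ℕ → ℕ) :
    ∑ x : Fin k → ZMod 2, f (idx x) = ∑ i ∈ range (2 ^ k), f i := by
  have hinj : Set.InjOn (bits k) (range (2 ^ k) : Finset ℕ) := by
    intro a ha b hb h
    exact bits_inj (mem_range.1 ha) (mem_range.1 hb) h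
  have himg : (range (2 ^ k)).image (bits k) = univ := by
    apply eq_univ_of_card
    rw [card_image_of_injOn hinj, card_range, Fintype.card_fun, ZMod.card, Fintype.card_fin]
  rw [← himg, sum_image hinj]
  exact sum_congr rfl fun i hi => by rw [idx_bits k i (mem_range.1 hi)]

/-- sum of `f` over the numbers below `n`, by recursion -/
def psum (f : ℕ → ℕ) (n : ℕ) : ℕ := Nat.rec 0 (fun i r => Nat.add r (f i)) n

lemma psum_eq (f : ℕ → ℕ) (n : ℕ) : psum f n = ∑ i ∈ range n, f i := by
  induction n with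
  | zero => simp [psum]
  | succ n ih =>
    rw [sum_range_succ, ← ih]
    rfl

/-- all numbers below `n` satisfy `f`, by recursion -/
def pall (f : ℕ → Bool) (n : ℕ) : Bool := Nat.rec true (fun i r => and r (f i)) n

lemma pall_spec (f : ℕ → Bool) (n : ℕ) (h : pall f n = true) : ∀ i, i < n → f i = true := by
  induction n with
  | zero => intro i hi; omega
  | succ n ih =>
    have h' : (pall f n && f n) = true := h
    rw [Bool.and_eq_true] at h'
    intro i hi
    rcases Nat.lt_succ_iff_lt_or_eq.1 hi with h1 | h1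
    · exact ih h'.1 i h1
    · rw [h1]; exact h'.2

/-- the test at the cell `(x, y)` with position `s` (counted from `0`) and the free edge `e`, for
the shift `t`; `pos` is `0` outside of the list and the position, counted from `1`, for the cells
of the list -/
def okt (pos : ℕ → ℕ → ℕ) (s x y e t : ℕ) : Bool :=
  match e with
  | 0 => Nat.ble (pos x (Nat.xor y t)) s || Nat.ble (pos (Nat.xor x t) y) s
  | 1 => Nat.ble (pos x (Nat.xor y t)) s || Nat.ble (pos (Nat.xor x t) (Nat.xor y t)) s
  | _ => Nat.ble (pos (Nat.xor x t) y) s || Nat.ble (pos (Nat.xor x t) (Nat.xor y t)) s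

/-- the test of the cell with the position `s` -/
def okc (k : ℕ) (pos : ℕ → ℕ → ℕ) (xc yc ce : ℕ → ℕ) (s : ℕ) : Bool :=
  Nat.ble (Nat.succ (xc s)) (2 ^ k) && Nat.ble (Nat.succ (yc s)) (2 ^ k) &&
    Nat.ble (ce s) 2 && Nat.beq (pos (xc s) (yc s)) (s + 1) &&
    pall (fun t => okt pos s (xc s) (yc s) (ce s) (t + 1)) (2 ^ k - 1)

lemma xor_shift {k a b : ℕ} (ha : a < 2 ^ k) (hb : b < 2 ^ k) (hne : a ≠ b) :
    ∃ t, t < 2 ^ k - 1 ∧ b = a ^^^ (t + 1) := by
  have h1 : a ^^^ b < 2 ^ k := Nat.xor_lt_two_pow ha hb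
  have h2 : a ^^^ b ≠ 0 := by
    intro h
    exact hne (Nat.xor_eq_zero_iff.1 h)
  refine ⟨(a ^^^ b) - 1, by omega, ?_⟩
  have : (a ^^^ b) - 1 + 1 = a ^^^ b := by omega
  rw [this, ← Nat.xor_assoc, Nat.xor_self, Nat.zero_xor]

theorem main_fast {k m D p q : ℕ} (xc yc ce : ℕ → ℕ) (pos : ℕ → ℕ → ℕ) (an bn cn : ℕ → ℕ)
    (hD : 0 < D) (hp : 0 < p) (hq : 0 < q)
    (hchk : pall (okc k pos xc yc ce) m = true)
    (ha : psum (fun x => an x ^ p) (2 ^ k) ≤ D ^ p)
    (hb : psum (fun x => bn x ^ p) (2 ^ k) ≤ D ^ p)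
    (hc : psum (fun x => cn x ^ p) (2 ^ k) ≤ D ^ p)
    (hC : D ^ (3 * q) < psum (fun s => (an (xc s) * bn (yc s) * cn (Nat.xor (xc s) (yc s))) ^ q) m) :
    ∃ n0 : ℕ, ∀ n : ℕ, n0 ≤ n → ∃ S : Finset ((Fin n → ZMod 2) × (Fin n → ZMod 2)),
      CornerFree S ∧ 2 ^ (3 * q * n) ≤ S.card ^ p := by
  have H := pall_spec _ _ hchk
  simp only [okc, Bool.and_eq_true] at H
  have hx : ∀ s < m, xc s < 2 ^ k := fun s hs => Nat.le_of_ble_eq_true (H s hs).1.1.1.1
  have hy : ∀ s < m, yc s < 2 ^ k := fun s hs => Nat.le_of_ble_eq_true (H s hs).1.1.1.2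
  have hce : ∀ s < m, ce s < 3 := fun s hs =>
    Nat.lt_succ_of_le (Nat.le_of_ble_eq_true (H s hs).1.1.2)
  have hpos : ∀ s < m, pos (xc s) (yc s) = s + 1 := fun s hs =>
    Nat.eq_of_beq_eq_true (H s hs).1.2
  have hok : ∀ s < m, ∀ t < 2 ^ k - 1, okt pos s (xc s) (yc s) (ce s) (t + 1) = true :=
    fun s hs => pall_spec _ _ (H s hs).2
  have hz : ∀ s < m, xc s ^^^ yc s < 2 ^ k := fun s hs => Nat.xor_lt_two_pow (hx s hs) (hy s hs)
  refine main_codes xc yc ce an bn cn hD hp hq hx hy ?_ ?_ ?_ ?_ hce ?_ ?_ ?_ ?_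
  · intro s hs t ht h h'
    have h1 := hpos s hs
    rw [h, h', hpos t ht] at h1
    omega
  · intro a ha h0 b hb hab hX c hc hac hY hE
    have hne : yc a ≠ yc b := by
      intro h
      have h1 := hpos a ha
      rw [hX, h, hpos b hb] at h1
      omega
    obtain ⟨t, ht, hyb⟩ := xor_shift (hy a ha) (hy b hb) hne
    have hxc : xc c = xc a ^^^ (t + 1) := by
      rw [← hX, hyb, ← hY] at hE
      have : xc a ^^^ (t + 1) = xc c := by
        have h2 : (xc a ^^^ (yc a ^^^ (t + 1))) ^^^ yc a = (xc c ^^^ yc a) ^^^ yc a := by rw [hE]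
        rw [Nat.xor_assoc (xc c), Nat.xor_self, Nat.xor_zero, Nat.xor_assoc,
          Nat.xor_comm (yc a ^^^ (t + 1)), ← Nat.xor_assoc (yc a), Nat.xor_self,
          Nat.zero_xor] at h2
        exact h2
      exact this.symm
    have hk := hok a ha t ht
    rw [h0] at hk
    simp only [okt, Bool.or_eq_true] at hk
    have e1 : pos (xc a) (Nat.xor (yc a) (t + 1)) = b + 1 := by
      have := hpos b hb
      rw [← hX, hyb] at this
      exact this
    have e2 : pos (Nat.xor (xc a) (t + 1)) (yc a) = c + 1 := by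
      have := hpos c hc
      rw [hxc, ← hY] at this
      exact this
    rcases hk with hk | hk
    · have := Nat.le_of_ble_eq_true hk
      rw [e1] at this
      omega
    · have := Nat.le_of_ble_eq_true hk
      rw [e2] at this
      omega
  · intro b hb h1' a ha hba hX c hc hbc hY hE
    have hne : yc b ≠ yc a := by
      intro h
      have h1 := hpos b hb
      rw [← hX, h, hpos a ha] at h1
      omega
    obtain ⟨t, ht, hya⟩ := xor_shift (hy b hb) (hy a ha) hne
    have hxc : xc c = xc b ^^^ (t + 1) := by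
      rw [← hY, hya] at hE
      have h2 : (xc b ^^^ yc b) ^^^ (yc b ^^^ (t + 1))
          = (xc c ^^^ (yc b ^^^ (t + 1))) ^^^ (yc b ^^^ (t + 1)) := by rw [hE]
      rw [Nat.xor_assoc (xc c), Nat.xor_self, Nat.xor_zero, Nat.xor_assoc,
        ← Nat.xor_assoc (yc b), Nat.xor_self, Nat.zero_xor] at h2
      exact h2.symm
    have hk := hok b hb t ht
    rw [h1'] at hk
    simp only [okt, Bool.or_eq_true] at hk
    have e1 : pos (xc b) (Nat.xor (yc b) (t + 1)) = a + 1 := by
      have := hpos a ha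
      rw [hX, hya] at this
      exact this
    have e2 : pos (Nat.xor (xc b) (t + 1)) (Nat.xor (yc b) (t + 1)) = c + 1 := by
      have := hpos c hc
      rw [hxc, ← hY, hya] at this
      exact this
    rcases hk with hk | hk
    · have := Nat.le_of_ble_eq_true hk
      rw [e1] at this
      omega
    · have := Nat.le_of_ble_eq_true hk
      rw [e2] at this
      omega
  · intro c hc h2' a ha hca hY b hb hcb hX hE
    have hne : xc c ≠ xc a := by
      intro h
      have h1 := hpos c hc
      rw [h, ← hY, hpos a ha] at h1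
      omega
    obtain ⟨t, ht, hxa⟩ := xor_shift (hx c hc) (hx a ha) hne
    have hyb : yc b = yc c ^^^ (t + 1) := by
      rw [← hX, hxa] at hE
      have h2 : (xc c ^^^ (t + 1)) ^^^ ((xc c ^^^ (t + 1)) ^^^ yc b)
          = (xc c ^^^ (t + 1)) ^^^ (xc c ^^^ yc c) := by rw [hE]
      rw [← Nat.xor_assoc, Nat.xor_self, Nat.zero_xor, Nat.xor_comm (xc c) (t + 1),
        Nat.xor_assoc, ← Nat.xor_assoc (xc c), Nat.xor_self, Nat.zero_xor,
        Nat.xor_comm] at h2
      exact h2
    have hk := hok c hc t ht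
    rw [h2'] at hk
    simp only [okt, Bool.or_eq_true] at hk
    have e1 : pos (Nat.xor (xc c) (t + 1)) (yc c) = a + 1 := by
      have := hpos a ha
      rw [hxa, hY] at this
      exact this
    have e2 : pos (Nat.xor (xc c) (t + 1)) (Nat.xor (yc c) (t + 1)) = b + 1 := by
      have := hpos b hb
      rw [← hX, hxa, hyb] at this
      exact this
    rcases hk with hk | hk
    · have := Nat.le_of_ble_eq_true hk
      rw [e1] at this
      omega
    · have := Nat.le_of_ble_eq_true hk
      rw [e2] at this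
      omega
  · rw [sum_idx k (fun x => an x ^ p), ← psum_eq]; exact ha
  · rw [sum_idx k (fun x => bn x ^ p), ← psum_eq]; exact hb
  · rw [sum_idx k (fun x => cn x ^ p), ← psum_eq]; exact hc
  · refine lt_of_lt_of_eq hC ?_
    rw [psum_eq, ← Fin.sum_univ_eq_sum_range]
    refine sum_congr rfl fun s _ => ?_
    rw [idx_bits k _ (hx s s.2), idx_bits k _ (hy s s.2), idx_bits k _ (hz s s.2)]
    rfl

end Pool.Agent.H72.Corner
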